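import Pool.Agent.Helper80.HD.GoalsB

/-!
# Packet EVB of project HD (`MP_6af536_nt`)
-/

set_option autoImplicit false

open MvPolynomial

noncomputable section

namespace Pool.Agent.Helper83.HD

open Pool.Agent.Helper80.HD

/-- a finite set containing the monomials of degree at most `d` -/
theorem monos (σ : Type) [Fintype σ] (d : ℕ) : ∃ T : Finset (σ →₀ ℕ),
    T.card ≤ (Fintype.card σ + 1) ^ d ∧ ∀ s : σ →₀ ℕ, (s.sum fun _ e => e) ≤ d → s ∈ T := by
  classical
  induction d with
  | zero =>
    refine ⟨{0}, by simp, ?_⟩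
    intro s hs
    rw [Finset.mem_singleton]
    have h0 : (s.sum fun _ e => e) = 0 := Nat.le_zero.mp hs
    ext j
    by_contra hj
    have hmem : j ∈ s.support := Finsupp.mem_support_iff.mpr (by simpa using hj)
    have h1 : s j ≤ s.sum fun _ e => e :=
      Finset.single_le_sum (f := fun j => s j) (fun _ _ => Nat.zero_le _) hmem
    rw [h0] at h1
    exact hj (by simpa using Nat.le_zero.mp h1)
  | succ d ih =>
    obtain ⟨T, hT, hTm⟩ := ih
    refine ⟨(Finset.univ : Finset (Option σ)).biUnion
      (fun o => T.image (fun s => s + o.elim 0 (fun j => Finsupp.single j 1))), ?_, ?_⟩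
    · refine Finset.card_biUnion_le.trans ?_
      refine (Finset.sum_le_sum (fun o _ => Finset.card_image_le)).trans ?_
      rw [Finset.sum_const, Finset.card_univ, Fintype.card_option, smul_eq_mul, pow_succ']
      exact Nat.mul_le_mul_left _ hT
    · intro s hs
      rw [Finset.mem_biUnion]
      by_cases h0 : s = 0
      · refine ⟨none, Finset.mem_univ _, ?_⟩
        rw [Finset.mem_image]
        refine ⟨0, hTm 0 (by simp), by simp [h0]⟩
      · obtain ⟨j, hj⟩ := Finsupp.ne_iff.mp h0
        have hj' : 1 ≤ s j := Nat.one_le_iff_ne_zero.mpr (by simpa using hj)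
        refine ⟨some j, Finset.mem_univ _, ?_⟩
        rw [Finset.mem_image]
        have hle : Finsupp.single j 1 ≤ s := Finsupp.single_le_iff.mpr hj'
        have hdec : s - Finsupp.single j 1 + Finsupp.single j 1 = s := tsub_add_cancel_of_le hle
        refine ⟨s - Finsupp.single j 1, hTm _ ?_, hdec⟩
        have hsum : (s.sum fun _ e => e) =
            ((s - Finsupp.single j 1).sum fun _ e => e) + 1 := by
          conv_lhs => rw [← hdec]
          rw [Finsupp.sum_add_index' (by simp) (by intros; rfl)]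
          simp
        omega

theorem card_support_le {σ : Type} [Fintype σ] (R : MvPolynomial σ ℂ) :
    (R.support.card : ℝ) ≤ ((Fintype.card σ : ℝ) + 1) ^ R.totalDegree := by
  obtain ⟨T, hT, hTm⟩ := monos σ R.totalDegree
  have h : R.support ⊆ T := fun s hs => hTm s (MvPolynomial.le_totalDegree hs)
  have h2 := (Finset.card_le_card h).trans hT
  exact_mod_cast h2

/-- the sum of the absolute values of the coefficients -/
def l1 {σ : Type} (R : MvPolynomial σ ℂ) : ℝ := ∑ s ∈ R.support, ‖R.coeff s‖

theorem l1_eq {σ : Type} (R : MvPolynomial σ ℂ) (T : Finset (σ →₀ ℕ)) (h : R.support ⊆ T) :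
    l1 R = ∑ s ∈ T, ‖R.coeff s‖ := by
  unfold l1
  apply Finset.sum_subset h
  intro s _ hs
  rw [MvPolynomial.notMem_support_iff.mp hs, norm_zero]

theorem l1_nonneg {σ : Type} (R : MvPolynomial σ ℂ) : 0 ≤ l1 R :=
  Finset.sum_nonneg fun _ _ => norm_nonneg _

theorem l1_zero {σ : Type} : l1 (0 : MvPolynomial σ ℂ) = 0 := by simp [l1]

theorem l1_add {σ : Type} (P Q : MvPolynomial σ ℂ) : l1 (P + Q) ≤ l1 P + l1 Q := by
  classical
  rw [l1_eq (P + Q) (P.support ∪ Q.support) MvPolynomial.support_add,
    l1_eq P (P.support ∪ Q.support) Finset.subset_union_left,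
    l1_eq Q (P.support ∪ Q.support) Finset.subset_union_right, ← Finset.sum_add_distrib]
  apply Finset.sum_le_sum
  intro s _
  rw [MvPolynomial.coeff_add]
  exact norm_add_le _ _

theorem l1_monomial {σ : Type} (s : σ →₀ ℕ) (a : ℂ) : l1 (monomial s a) ≤ ‖a‖ := by
  classical
  rw [l1_eq (monomial s a) {s} MvPolynomial.support_monomial_subset, Finset.sum_singleton,
    MvPolynomial.coeff_monomial, if_pos rfl]

theorem l1_sum {σ ι : Type} (T : Finset ι) (f : ι → MvPolynomial σ ℂ) :
    l1 (∑ i ∈ T, f i) ≤ ∑ i ∈ T, l1 (f i) :=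
  Finset.le_sum_of_subadditive l1 l1_zero.le l1_add T f

theorem l1_mul {σ : Type} (P Q : MvPolynomial σ ℂ) : l1 (P * Q) ≤ l1 P * l1 Q := by
  classical
  have h : P * Q = ∑ a ∈ P.support, ∑ b ∈ Q.support, monomial (a + b) (P.coeff a * Q.coeff b) := by
    conv_lhs => rw [P.as_sum, Q.as_sum]
    rw [Finset.sum_mul_sum]
    apply Finset.sum_congr rfl
    intro a _
    apply Finset.sum_congr rfl
    intro b _
    rw [MvPolynomial.monomial_mul]
  rw [h]
  refine (l1_sum _ _).trans ?_
  unfold l1
  rw [Finset.sum_mul_sum]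
  apply Finset.sum_le_sum
  intro a _
  refine (l1_sum _ _).trans ?_
  apply Finset.sum_le_sum
  intro b _
  refine (l1_monomial _ _).trans ?_
  rw [norm_mul]

theorem gn_le_l1 {σ : Type} (R : MvPolynomial σ ℂ) : gn absC R ≤ l1 R := by
  unfold gn
  apply Real.iSup_le _ (l1_nonneg R)
  rintro ⟨s, hs⟩
  exact Finset.single_le_sum (f := fun s => ‖R.coeff s‖) (fun _ _ => norm_nonneg _) hs

theorem coeff_le_gn {σ : Type} (R : MvPolynomial σ ℂ) (s : σ →₀ ℕ) (hs : s ∈ R.support) :
    ‖R.coeff s‖ ≤ gn absC R := by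
  unfold gn
  exact le_ciSup (f := fun s : R.support => absC (R.coeff s)) (Set.finite_range _).bddAbove ⟨s, hs⟩

theorem gn_nonneg {σ : Type} (R : MvPolynomial σ ℂ) : 0 ≤ gn absC R := by
  unfold gn
  exact Real.iSup_nonneg fun s => absC.nonneg _

theorem l1_le {σ : Type} [Fintype σ] (R : MvPolynomial σ ℂ) :
    l1 R ≤ ((Fintype.card σ : ℝ) + 1) ^ R.totalDegree * gn absC R := by
  have h1 : l1 R ≤ R.support.card * gn absC R := by
    unfold l1
    calc ∑ s ∈ R.support, ‖R.coeff s‖ ≤ ∑ _s ∈ R.support, gn absC R :=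
          Finset.sum_le_sum (fun s hs => coeff_le_gn R s hs)
      _ = R.support.card * gn absC R := by rw [Finset.sum_const, nsmul_eq_mul]
  exact h1.trans (mul_le_mul_of_nonneg_right (card_support_le R) (gn_nonneg R))

/-- PACKET EVB. -/
theorem evb : S_EVB := by
  intro σ _
  constructor
  · intro R w hw
    refine le_trans ?_ (l1_le R)
    rw [MvPolynomial.eval_eq]
    refine (norm_sum_le _ _).trans ?_
    unfold l1
    apply Finset.sum_le_sum
    intro s _
    rw [norm_mul, norm_prod]
    apply mul_le_of_le_one_right (norm_nonneg _)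
    apply Finset.prod_le_one
    · intro j _
      exact norm_nonneg _
    · intro j _
      rw [norm_pow]
      exact pow_le_one₀ (norm_nonneg _) (hw j)
  · intro ι s R
    classical
    have h1 : l1 (∏ i ∈ s, R i) ≤ ∏ i ∈ s, l1 (R i) := by
      induction s using Finset.induction_on with
      | empty =>
        rw [Finset.prod_empty, Finset.prod_empty]
        have := l1_monomial (0 : σ →₀ ℕ) (1 : ℂ)
        rw [norm_one] at this
        exact this
      | insert a s ha ih =>
        rw [Finset.prod_insert ha, Finset.prod_insert ha]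
        exact (l1_mul _ _).trans (mul_le_mul_of_nonneg_left ih (l1_nonneg _))
    refine (gn_le_l1 _).trans (h1.trans ?_)
    rw [← Finset.prod_pow_eq_pow_sum, ← Finset.prod_mul_distrib]
    apply Finset.prod_le_prod
    · intro i _
      exact l1_nonneg _
    · intro i _
      exact l1_le _

end Pool.Agent.Helper83.HD
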