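import Pool.Agent.Helper80.HD.GoalsA

/-!
# Packet FIN of project HD (`MP_6af536_nt`)
-/

set_option autoImplicit false

open MvPolynomial Filter Topology

noncomputable section

namespace Pool.Agent.Helper83.HD

open Pool.Agent.Helper80.HD

open AlgebraicIndependent in
/-- exchange property for algebraic dependence, in the form of a cardinality argument -/
theorem alg_of_card {K : Type} [Field K] [Algebra K ℂ] (S T : Set ℂ) (hS : S.Finite)
    (hT : AlgebraicIndepOn K id T) (hle : S.encard ≤ T.encard)
    (hTS : ∀ x ∈ T, IsAlgebraic (Algebra.adjoin K S) x) (a : ℂ)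
    (ha : IsAlgebraic (Algebra.adjoin K S) a) :
    IsAlgebraic (Algebra.adjoin K T) a := by
  have hcl : ∀ x, x ∈ (matroid K ℂ).closure S ↔ IsAlgebraic (Algebra.adjoin K S) x := by
    intro x
    rw [matroid_closure_eq, SetLike.mem_coe, Subalgebra.mem_algebraicClosure]
  have hTi : (matroid K ℂ).Indep T := matroid_indep_iff.mpr hT
  have hTc : T ⊆ (matroid K ℂ).closure S := fun x hx => (hcl x).mpr (hTS x hx)
  obtain ⟨B, hB⟩ := (matroid K ℂ).exists_isBasis S
  have hB' : (matroid K ℂ).IsBasis B ((matroid K ℂ).closure S) := hB.isBasis_closure_right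
  obtain ⟨J, hJ, hTJ⟩ := hTi.subset_isBasis_of_subset hTc
  have hc : J.encard = B.encard := hJ.encard_eq_encard hB'
  have hBS : B.encard ≤ S.encard := Set.encard_le_encard hB.subset
  have hJfin : J.Finite := by
    rw [← Set.encard_lt_top_iff, hc]
    exact lt_of_le_of_lt hBS (Set.encard_lt_top_iff.mpr hS)
  have hTJ' : T = J := (hJfin.subset hTJ).eq_of_subset_of_encard_le hTJ (by rw [hc]; exact hBS.trans hle)
  rw [← hTJ'] at hJ
  rw [isAlgebraic_adjoin_iff_of_matroid_isBasis hJ]
  exact isAlgebraic_algebraMap
    (⟨a, Algebra.subset_adjoin ((hcl a).mpr ha)⟩ : Algebra.adjoin K ((matroid K ℂ).closure S))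

/-- the number of free parameters -/
theorem card_free (k N : ℕ) (p : Fin k → Fin (N + 1)) :
    Fintype.card {q : Fin k × Fin (N + 1) // q.2 ≠ p q.1} = k * N := by
  rw [Fintype.card_congr (Equiv.subtypeProdEquivSigmaSubtype (fun i j => j ≠ p i)), Fintype.card_sigma]
  simp [Fintype.card_subtype_compl]

/-- PACKET FIN. -/
theorem fin (hIND : S_IND) : S_FIN := by
  intro K _ _ _ F k N z p c hFG htr hz hbig hc
  have hθ : AlgebraicIndependent K (gen z p c) := hIND K F k k N z p c hFG htr le_rfl hz hbig hc
  obtain ⟨ι, t, ht⟩ := exists_isTranscendenceBasis' K F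
  have hι : Cardinal.mk ι = k := ht.cardinalMk_eq_trdeg.trans htr
  have hfin : Finite ι := by
    rw [← Cardinal.lt_aleph0_iff_finite, hι]
    exact Cardinal.natCast_lt_aleph0
  set S : Set ℂ := Set.range (fun i => ((t i : F) : ℂ)) ∪
    Set.range (fun q : {q : Fin k × Fin (N + 1) // q.2 ≠ p q.1} => c q) with hSdef
  have hSfin : S.Finite := (Set.finite_range _).union (Set.finite_range _)
  have hιc : Nat.card ι = k := by
    rw [Nat.card, hι, Cardinal.toNat_natCast]
  have hScard : S.encard ≤ ((k * (N + 1) : ℕ) : ℕ∞) := by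
    have h1 : (Set.range (fun i => ((t i : F) : ℂ))).encard ≤ (k : ℕ∞) := by
      rw [← Set.image_univ]
      refine (Set.encard_image_le _ _).trans ?_
      rw [Set.encard_univ, ENat.card_eq_coe_natCard, hιc]
    have h2 : (Set.range (fun q : {q : Fin k × Fin (N + 1) // q.2 ≠ p q.1} => c q)).encard ≤
        ((k * N : ℕ) : ℕ∞) := by
      rw [← Set.image_univ]
      refine (Set.encard_image_le _ _).trans ?_
      rw [Set.encard_univ, ENat.card_eq_coe_natCard, Nat.card_eq_fintype_card, card_free]
    refine (Set.encard_union_le _ _).trans ((add_le_add h1 h2).trans (le_of_eq ?_))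
    push_cast
    ring
  have hTcard : (Set.range (gen z p c)).encard = ((k * (N + 1) : ℕ) : ℕ∞) := by
    rw [← Set.image_univ, hθ.injective.injOn.encard_image, Set.encard_univ,
      ENat.card_eq_coe_natCard, Nat.card_eq_fintype_card]
    simp
  -- everything in `F` is algebraic over `K(S)`
  have hF : ∀ a ∈ F, IsAlgebraic (Algebra.adjoin K S) a := by
    intro a ha
    have h1 : IsAlgebraic (Algebra.adjoin K (Set.range t)) (⟨a, ha⟩ : F) := ht.isAlgebraic.1 _
    have hle : (Algebra.adjoin K (Set.range t)).map F.val ≤ Algebra.adjoin K S := by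
      rw [AlgHom.map_adjoin]
      apply Algebra.adjoin_mono
      rw [hSdef]
      refine Set.Subset.trans ?_ Set.subset_union_left
      rintro _ ⟨_, ⟨i, rfl⟩, rfl⟩
      exact ⟨i, rfl⟩
    let f : Algebra.adjoin K (Set.range t) →+* Algebra.adjoin K S :=
      { toFun := fun x => ⟨F.val x.1, hle ⟨x.1, x.2, rfl⟩⟩
        map_one' := by ext; simp
        map_mul' := fun x y => by ext; simp
        map_zero' := by ext; simp
        map_add' := fun x y => by ext; simp }
    have hf : Function.Injective f := by
      intro x y hxy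
      have h := congrArg Subtype.val hxy
      exact Subtype.ext (Subtype.ext h)
    exact h1.ringHom_of_comp_eq f (F.val : F →+* ℂ) hf (by ext; rfl)
  have hcS : ∀ q : Fin k × Fin (N + 1), q.2 ≠ p q.1 → IsAlgebraic (Algebra.adjoin K S) (c q) := by
    intro q hq
    exact isAlgebraic_algebraMap
      (⟨c q, Algebra.subset_adjoin (Or.inr ⟨⟨q, hq⟩, rfl⟩)⟩ : Algebra.adjoin K S)
  have hTS : ∀ x ∈ Set.range (gen z p c), IsAlgebraic (Algebra.adjoin K S) x := by
    rintro _ ⟨q, rfl⟩
    unfold gen
    split_ifs with hq
    · rw [← Subalgebra.mem_algebraicClosure]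
      apply neg_mem
      apply sum_mem
      intro j hj
      apply mul_mem
      · rw [Subalgebra.mem_algebraicClosure]
        exact hcS (q.1, j) (Finset.ne_of_mem_erase hj)
      · rw [Subalgebra.mem_algebraicClosure]
        apply hF
        apply (hbig q.1).2.1
        exact IntermediateField.subset_adjoin K _ ⟨j, p q.1, rfl⟩
    · exact hcS q hq
  have hT : AlgebraicIndepOn K id (Set.range (gen z p c)) := hθ.to_subtype_range
  have hFθ : ∀ a ∈ F, IsAlgebraic (LK K (gen z p c)) a := by
    intro a ha
    have h1 := alg_of_card S (Set.range (gen z p c)) hSfin hT (by rw [hTcard]; exact hScard) hTS a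
      (hF a ha)
    have hle : Algebra.adjoin K (Set.range (gen z p c)) ≤ (LK K (gen z p c)).toSubalgebra :=
      IntermediateField.algebra_adjoin_le_adjoin K _
    exact h1.ringHom_of_comp_eq (Subalgebra.inclusion hle : _ →+* (LK K (gen z p c)).toSubalgebra)
      (RingHom.id ℂ) (Subalgebra.inclusion_injective hle) (by ext; rfl)
  obtain ⟨T, hT'⟩ := hFG
  have hFF : FF K (LK K (gen z p c)) F =
      IntermediateField.adjoin (LK K (gen z p c)) ((T : Set ℂ)) := by
    apply le_antisymm
    · rw [FF, IntermediateField.adjoin_le_iff, ← hT']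
      have : IntermediateField.adjoin K (T : Set ℂ) ≤
          (IntermediateField.adjoin (LK K (gen z p c)) ((T : Set ℂ))).restrictScalars K := by
        rw [IntermediateField.adjoin_le_iff]
        exact IntermediateField.subset_adjoin _ _
      exact this
    · apply IntermediateField.adjoin.mono
      rw [← hT']
      exact IntermediateField.subset_adjoin _ _
  rw [hFF]
  apply IntermediateField.finiteDimensional_adjoin
  intro x hx
  apply IsAlgebraic.isIntegral
  apply hFθ
  rw [← hT']
  exact IntermediateField.subset_adjoin _ _ hx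

end Pool.Agent.Helper83.HD
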